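import Mathlib
import Pool.Agent.Results.MP_413b36_nt.ClusterExtensions

/-!
# The parity conjecture for products of twists over multiquadratic fields generated by clusters of primes

`E_M` is the quadratic twist by `M` of the modular curve `X_0(14)` (no complex multiplication). For a
finite set `A` of nonzero integers let `E_A = ∏_{M ∈ A} E_M`, an abelian variety over `ℚ` of dimension
`#A`. `ParityZero V A` says that over `k = ℚ(√d : d ∈ V)`, of degree `2^#V`, the parity conjecture holds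
for `E_A`, with rank zero: `E_A(k)` is finite, the rank is `0`, the `L`-function of `E_A` over `k`
(without finitely many places) is entire and does not vanish at the centre, and every root number is
`1 = (-1)^0`.

Let `T` and `S₀` be ANY finite subsets of the class `Adm`, `S₀` independent modulo squares. For all `n`
and `η > 0` there are `z`, `d`, `C`, `X₀` and `ρ, b > 0`, which depend only on `n` and `η`, such that for
all `T`, `S₀`, all the residues `c` modulo `P = 504 ∏_{M ∈ T} |M| ∏_{d ∈ S₀} |d|` with `Residue T S₀ c`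
(there are such `c`) and every `X ≥ X₀` there are frequencies `θ_1, …, θ_d` with the following property.
Let `B` be the Bohr set of all integers `|h| ≤ X` with `|exp (2 π i h θ_j) - 1| ≤ ρ` for all `j`; it has
at least `b X` elements. Put `W = P z!`. For at least `(1 - η) |B| ^ n` of the vectors `(h_1, …, h_n)` in
`B ^ n` (the entries being distinct and not zero) and for arbitrarily large `N`, the same for all these
vectors, there are at least `N / (log N) ^ C` primes `p_0 ≤ N` such that `p_0` and all the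
`p_i = p_0 + W h_i` are primes `≡ c` modulo `P`, the set `S = {p_0*, …, p_n*}` adds `n + 1` elements to
`S₀`, and `S₀ ∪ S` is independent modulo squares, and: if `Criterion {1} S₀ M` (rank zero and
`Ш[2] = 0` for the twists by the squarefree parts of the `M ∏_{d ∈ U} d`, `U ⊆ S₀`) holds for all
`M ∈ T`, then `ParityZero V A` for ALL the subsets `V` of `S₀ ∪ S` and ALL the nonempty subsets `A` of the
set of the `M ∏_{d ∈ U} d`, `M ∈ T`, `U ⊆ S`: these are abelian varieties of dimensions up to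
`2^(n+1) #T`, over fields of degree up to `2^(n+1) 2^#S₀`.

The ranks and the `L`-functions of the single curves are those of `ClusterExtensions` (problem
`MP_413b36_nt`); the treatment of the root numbers (the sign of a functional equation of a function which
does not vanish at the centre) is the one of `ProductsOfTwists` (by helper291) of this problem, which is
over `ℚ`.
-/

set_option autoImplicit false

open Filter NumberField IsDedekindDomain

namespace Pool.Agent.Results.MP_ac3185_nt.ClusterProducts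

open Pool.Agent.Results.MP_787500_nt.LayersBlochKatoLaw (Adm base factor rank twist multiquadratic)

open Pool.Agent.Results.MP_0b9e0b_ag.MultiquadraticProducts (IsBase Criterion)

open Pool.Agent.Results.MP_413b36_nt.ClusterExtensions (IsL OrderIsRank modulus Residue star members
  stars bohrSet)

open scoped Classical

section

variable (k : Type) [Field k] [NumberField k]

/-- the group of the points over `k` of the abelian variety `E_A = ∏_{M ∈ A} E_M` -/
abbrev Points (A : Finset ℤ) : Type := ∀ M : A, (base (twist (M : ℤ)) k).toAffine.Point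

/-- the rank of `E_A(k)` -/
noncomputable def rankA (A : Finset ℤ) : ℕ := Module.finrank ℤ (Points k A)

/-- `L` is entire and is, for `Re s > 3/2`, the `L`-function of `E_A` over `k`, the Euler factors of
`E_M` at the places that divide `42 M N` being left out -/
def IsLA (A : Finset ℤ) (N : ℤ) (L : ℂ → ℂ) : Prop :=
  Differentiable ℂ L ∧ ∀ s : ℂ, 3 / 2 < s.re →
    HasProd (fun v : HeightOneSpectrum (𝓞 k) => ∏ M ∈ A,
      if ((42 * M * N : ℤ) : 𝓞 k) ∈ v.asIdeal then 1 else factor (K := k) (twist M) s v) (L s)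

end

/-- `Λ(s) = Q^(s/2) ((2π)^{-s} Γ(s))^g B(s) L(s)` -/
noncomputable def Lambda (g : ℕ) (Q : ℝ) (B L : ℂ → ℂ) (s : ℂ) : ℂ :=
  (Q : ℂ) ^ (s / 2) * ((2 * (Real.pi : ℂ)) ^ (-s) * Complex.Gamma s) ^ g * B s * L s

/-- `w` is a sign with `Λ(s) = w Λ(2 - s)` in the critical strip, for some positive number `Q` and some
function `B` (the product of the Euler factors which are missing in `L`) with `B` analytic at `1`,
`B(1) ≠ 0` -/
def IsRootNumber (g : ℕ) (L : ℂ → ℂ) (w : ℤ) : Prop :=
  (w = 1 ∨ w = -1) ∧ ∃ (Q : ℝ) (B : ℂ → ℂ), 0 < Q ∧ AnalyticAt ℂ B 1 ∧ B 1 ≠ 0 ∧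
    ∀ s : ℂ, 1 / 2 < s.re → s.re < 3 / 2 → Lambda g Q B L s = w * Lambda g Q B L (2 - s)

/-- The parity conjecture holds for `E_A` over `k = ℚ(√d : d ∈ V)`, of degree `2^#V`, with rank zero:
`E_A(k)` is finite, the rank is zero, the `L`-function over `k` is entire and does not vanish at the
centre, and all the root numbers over `k` are `1 = (-1)^0`. -/
def ParityZero (V A : Finset ℤ) : Prop :=
  ∀ (k : IntermediateField ℚ ℂ) [NumberField k], k = multiquadratic V →
    Module.finrank ℚ k = 2 ^ V.card ∧ Finite (Points k A) ∧ rankA k A = 0 ∧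
    ∃ L : ℂ → ℂ, IsLA k A (∏ d ∈ V, d) L ∧ L 1 ≠ 0 ∧
      ∀ w : ℤ, IsRootNumber (A.card * Module.finrank ℚ k) L w → w = 1 ∧ (-1 : ℤ) ^ rankA k A = w

/-- the set of the numbers `M ∏_{d ∈ U} d`, `M ∈ T`, `U ⊆ S` -/
noncomputable def cube (T S : Finset ℤ) : Finset ℤ :=
  (T ×ˢ S.powerset).image fun x => x.1 * ∏ d ∈ x.2, d

/-- the statement on `T`, `S₀` and the set `S` of the cluster -/
def Statement (T S₀ S : Finset ℤ) : Prop :=
  (∀ M ∈ cube T S, Adm M) ∧ ((∀ M₀ ∈ T, Criterion {1} S₀ M₀) →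
    ∀ V ⊆ S₀ ∪ S, ∀ A ⊆ cube T S, A.Nonempty → ParityZero V A)

/-- the primes `p ≤ N` of the class of `c` for which all the `p + W h_i` are primes of the class, the set
`S` of the cluster adds `n + 1` elements to `S₀`, `S₀ ∪ S` is a subset of the class `Adm`, independent
modulo squares, and the statement holds -/
def goodPrimes {n : ℕ} (T S₀ : Finset ℤ) (c W : ℕ) (h : Fin n → ℤ) (N : ℕ) : Set ℕ :=
  {p : ℕ | p ≤ N ∧ p.Prime ∧ p % modulus T S₀ = c % modulus T S₀ ∧
    (∀ i, ∃ q : ℕ, q.Prime ∧ q % modulus T S₀ = c % modulus T S₀ ∧ (q : ℤ) = p + W * h i) ∧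
    (S₀ ∪ stars W h p).card = S₀.card + (n + 1) ∧ IsBase (S₀ ∪ stars W h p) ∧
    Statement T S₀ (stars W h p)}

theorem root_one {g : ℕ} {F : ℂ → ℂ} (hF : F 1 ≠ 0) {w : ℤ} (h : IsRootNumber g F w) : w = 1 := by
  obtain ⟨hw, Q, B, hQ, -, hB, h⟩ := h
  rcases hw with hw | hw
  · exact hw
  · exfalso
    have h1 := h 1 (by norm_num) (by norm_num)
    have e : (2 : ℂ) - 1 = 1 := by norm_num
    rw [hw, e] at h1
    have h2 : Lambda g Q B F 1 = 0 := by
      push_cast at h1
      linear_combination h1 / 2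
    unfold Lambda at h2
    rw [Complex.Gamma_one, mul_one] at h2
    have hQ0 : (Q : ℂ) ≠ 0 := by exact_mod_cast hQ.ne'
    have hpi : (2 * (Real.pi : ℂ)) ≠ 0 := by
      have : (Real.pi : ℂ) ≠ 0 := by exact_mod_cast Real.pi_ne_zero
      exact mul_ne_zero two_ne_zero this
    refine mul_ne_zero (mul_ne_zero (mul_ne_zero ?_ (pow_ne_zero _ ?_)) hB) hF h2
    · intro h3
      exact hQ0 ((Complex.cpow_eq_zero_iff _ _).1 h3).1
    · intro h3
      exact hpi ((Complex.cpow_eq_zero_iff _ _).1 h3).1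

lemma ord_zero {L : ℂ → ℂ} (hL : Differentiable ℂ L) {n : ℕ} (h : analyticOrderAt L 1 = n)
    (hn : n = 0) : L 1 ≠ 0 := by
  rw [hn, Nat.cast_zero, analyticOrderAt_eq_zero] at h
  exact h.resolve_left fun h' => h' (hL.analyticAt 1)

lemma finite_of (k : Type) [Field k] [NumberField k] (W : WeierstrassCurve ℤ) (hW : W.Δ ≠ 0)
    (hr : rank k W = 0) : Finite (base W k).toAffine.Point := by
  have h1 : Module.Finite ℤ (base W k).toAffine.Point := Pool.Agent.Y682.YR.fgK hW
  exact Module.finite_of_fg_torsion _ (Module.finrank_eq_zero_iff_isTorsion.1 hr)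

lemma rankA_zero (k : Type) [Field k] [NumberField k] (A : Finset ℤ) (h : Finite (Points k A)) :
    rankA k A = 0 := by
  have h3 : Module.Finite ℤ (Points k A) := Module.Finite.of_finite
  show Module.finrank ℤ (Points k A) = 0
  rw [Module.finrank_eq_zero_iff_isTorsion]
  intro x
  exact ⟨⟨(Nat.card (Points k A) : ℤ),
    mem_nonZeroDivisors_of_ne_zero (by exact_mod_cast Nat.card_pos.ne')⟩, by
    show (Nat.card (Points k A) : ℤ) • x = 0
    rw [natCast_zsmul]
    exact card_nsmul_eq_zero'⟩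

lemma parity_of {V A : Finset ℤ} (hA : ∀ M ∈ A, Adm M) (hne : A.Nonempty)
    (h : ∀ M ∈ A, OrderIsRank V M) : ParityZero V A := by
  intro k _ hk
  obtain ⟨M₀, hM₀⟩ := hne
  have hfin : Finite (Points k A) := by
    have : ∀ M : A, Finite (base (twist (M : ℤ)) k).toAffine.Point := fun M =>
      finite_of k _ (Pool.Agent.Y682.YQ.wm_ne (hA M M.2).2.1) (h M M.2 k hk).2.1
    exact Pi.finite
  have hr := rankA_zero k A hfin
  have hL : ∀ M : ℤ, ∃ L : ℂ → ℂ, M ∈ A → (IsL k M (∏ d ∈ V, d) L ∧ L 1 ≠ 0) := by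
    intro M
    by_cases hM : M ∈ A
    · obtain ⟨-, h1, ⟨L, h2, h3⟩, -⟩ := h M hM k hk
      exact ⟨L, fun _ => ⟨h2, ord_zero h2.1 h3 h1⟩⟩
    · exact ⟨0, fun h' => absurd h' hM⟩
  choose L hL using hL
  have hne : ∏ M ∈ A, L M 1 ≠ 0 := Finset.prod_ne_zero_iff.2 fun M hM => (hL M hM).2
  refine ⟨(h M₀ hM₀ k hk).1, hfin, hr, fun s => ∏ M ∈ A, L M s, ⟨?_, fun s hs => ?_⟩, hne,
    fun w hw => ?_⟩
  · exact Differentiable.fun_finsetProd fun M hM => (hL M hM).1.1
  · exact hasProd_prod fun M hM => (hL M hM).1.2 s hs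
  · have hw1 := root_one hne hw
    refine ⟨hw1, ?_⟩
    rw [hr, pow_zero, hw1]

lemma sub {n : ℕ} {T S₀ : Finset ℤ} {c W : ℕ} {h : Fin n → ℤ} (N : ℕ) :
    Pool.Agent.Results.MP_413b36_nt.ClusterExtensions.goodPrimes T S₀ c W h N ⊆
      goodPrimes T S₀ c W h N := by
  rintro p ⟨h1, h2, h3, h4, h5, h6, h7⟩
  have hcube : ∀ M ∈ cube T (stars W h p), ∃ M₁ ∈ T, ∃ U ⊆ stars W h p, M = M₁ * ∏ d ∈ U, d := by
    intro M hM
    unfold cube at hM
    rw [Finset.mem_image] at hM
    obtain ⟨⟨M₁, U⟩, hx, rfl⟩ := hM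
    rw [Finset.mem_product, Finset.mem_powerset] at hx
    exact ⟨M₁, hx.1, U, hx.2, rfl⟩
  have hadm : ∀ M ∈ cube T (stars W h p), Adm M := by
    intro M hM
    obtain ⟨M₁, hM₁, U, hU, rfl⟩ := hcube M hM
    exact (h7 M₁ hM₁ U hU).1
  refine ⟨h1, h2, h3, h4, h5, h6, hadm, fun hc V hV A hA hne => ?_⟩
  refine parity_of (fun M hM => hadm M (hA hM)) hne fun M hM => ?_
  obtain ⟨M₁, hM₁, U, hU, rfl⟩ := hcube M (hA hM)
  exact (h7 M₁ hM₁ U hU).2 hc V hV

/-- **Main theorem.** The parity conjecture, with rank zero, for the products of the twists by the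
`M ∏_{d ∈ U} d`, `M ∈ T`, `U ⊆ S`, over the fields `ℚ(√d : d ∈ V)`, `V ⊆ S₀ ∪ S`, where `S` is a cluster
of primes, for almost all the configurations of the primes in a Bohr set. -/
theorem result (n : ℕ) (η : ℝ) (hη : 0 < η) :
    ∃ (z d C X₀ : ℕ) (ρ b : ℝ), 0 < ρ ∧ 0 < b ∧
      ∀ T S₀ : Finset ℤ, (∀ M ∈ T, Adm M) → IsBase S₀ → (∃ c, Residue T S₀ c) ∧
        ∀ c : ℕ, Residue T S₀ c → ∀ X : ℕ, X₀ ≤ X →
        ∃ (θ : Fin d → ℝ) (H : Finset (Fin n → ℤ)),
          b * X ≤ ((bohrSet θ ρ X).ncard : ℝ) ∧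
          (∀ h ∈ H, (∀ i, h i ∈ bohrSet θ ρ X ∧ h i ≠ 0) ∧ Function.Injective h) ∧
          (1 - η) * ((bohrSet θ ρ X).ncard : ℝ) ^ n ≤ (H.card : ℝ) ∧
          ∃ᶠ N : ℕ in atTop, ∀ h ∈ H, (N : ℝ) / (Real.log N) ^ C ≤
            ((goodPrimes T S₀ c (modulus T S₀ * z.factorial) h N).ncard : ℝ) := by
  obtain ⟨z, d, C, X₀, ρ, b, hρ, hb, hS⟩ :=
    Pool.Agent.Results.MP_413b36_nt.ClusterExtensions.result n η hη
  refine ⟨z, d, C, X₀, ρ, b, hρ, hb, fun T S₀ hT hS₀ => ⟨(hS T S₀ hT hS₀).1, fun c hc X hX => ?_⟩⟩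
  obtain ⟨θ, H, h1, h2, h3, h4⟩ := (hS T S₀ hT hS₀).2 c hc X hX
  refine ⟨θ, H, h1, h2, h3, h4.mono fun N hN h hh => (hN h hh).trans ?_⟩
  rw [Nat.cast_le]
  exact Set.ncard_le_ncard (sub N) ((Set.finite_Iic N).subset fun p hp => hp.1)

end Pool.Agent.Results.MP_ac3185_nt.ClusterProducts
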