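import Pool.Agent.Results.MP_29b22a_nt.ProductsOfTwists

/-!
# The parity conjecture for products of twists of `X_0(14)`, in every dimension

`E_N` is the quadratic twist by `N` of the modular curve `X_0(14)`, an elliptic curve over `ℚ` without
complex multiplication.  For a finite set `T` of twists let `A_T = ∏_{N ∈ T} E_N`, an abelian variety over
`ℚ` of dimension `g = #T`.  Its `L`-function is the product of those of the curves `E_N`, and the product
of the local root numbers of `A_T` is the sign `w` of the functional equation `Λ(s) = w Λ(2 - s)` of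
`Λ(s) = Q^(s/2) ((2π)^(-s) Γ(s))^g L(A_T, s)`, where `Q` is the conductor (the curves are modular).

The base class consists of the squarefree `D > 0` which are squares modulo `7` and all of whose prime
factors are `1` modulo `8` and split in `ℚ(√-7)`, or `5` modulo `8` and inert in `ℚ(√-7)`.  Let `S` be any
finite subset of the class `Adm` (twists of both signs) and `S_D = {squarefree part of M D : M ∈ S}`, a
set with `#S` elements.

Theorem: if `T` is a finite subset of the class, `1` is not in `T`, and for all `N ∈ T` the group `E_N(ℚ)`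
is finite and `Ш(E_N)[2] = 0`, then the parity conjecture holds for `A_T`: the rank is `0`, the
`L`-function is entire and not zero at the centre, and every sign of a functional equation (for an
arbitrary `Q > 0`) is `1 = (-1)^0`.  It holds for `A_T`, `T = S_D`, for a lower proportion of at least
`c ^ #S` of the `D` of the base class, `c = 0.4194…`, for every finite subset `S` of `Adm`.
-/

set_option autoImplicit false

open Filter Topology WeierstrassCurve

namespace Pool.Agent.Results.MP_ac3185_nt.ProductsOfTwists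

open Pool.Agent.Results.MP_29b22a_nt.ProductsOfTwists (E base IsL Points RankZeroShaTwo Base Adm
  twists count cc Good)

/-- `Λ(s) = Q^(s/2) ((2π)^(-s) Γ(s))^g L(s)` -/
noncomputable def Lambda (g : ℕ) (Q : ℝ) (L : ℂ → ℂ) (s : ℂ) : ℂ :=
  (Q : ℂ) ^ (s / 2) * ((2 * (Real.pi : ℂ)) ^ (-s) * Complex.Gamma s) ^ g * L s

/-- `w` is a sign with `Λ(s) = w Λ(2 - s)` in the critical strip, for some positive number `Q` -/
def IsRootNumber (g : ℕ) (L : ℂ → ℂ) (w : ℤ) : Prop :=
  (w = 1 ∨ w = -1) ∧ ∃ Q : ℝ, 0 < Q ∧ ∀ s : ℂ, 1 / 2 < s.re → s.re < 3 / 2 →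
    Lambda g Q L s = w * Lambda g Q L (2 - s)

/-- the Mordell-Weil rank of `A_T` -/
noncomputable def rank (T : Finset ℤ) : ℕ := Module.finrank ℤ (Points T)

/-- The parity conjecture holds for `A_T = ∏_{N ∈ T} E_N`, with rank zero: the group `A_T(ℚ)` is finite and
of rank `0`, there is an `L`-function, it does not vanish at the centre, and every root number `w` is
`1 = (-1)^0`. -/
def ParityRankZero (T : Finset ℤ) : Prop :=
  Finite (Points T) ∧ rank T = 0 ∧ (∃ L : ℂ → ℂ, IsL T L) ∧
    ∀ L : ℂ → ℂ, IsL T L → L 1 ≠ 0 ∧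
      ∀ w : ℤ, IsRootNumber T.card L w → w = 1 ∧ (-1 : ℤ) ^ rank T = w

/-- For every `ε > 0` the number `b X` is at least `(t - ε) c X` for all large `X`: the lower proportion
of `b` in `c` is at least `t`. -/
def LowerProportion (b c : ℕ → ℕ) (t : ℝ) : Prop :=
  ∀ ε : ℝ, 0 < ε → ∃ X₀ : ℕ, ∀ X : ℕ, X₀ ≤ X → (t - ε) * (c X : ℝ) ≤ (b X : ℝ)

theorem root_one {g : ℕ} {L : ℂ → ℂ} (hL : L 1 ≠ 0) {w : ℤ} (h : IsRootNumber g L w) : w = 1 := by
  obtain ⟨hw, Q, hQ, h⟩ := h
  rcases hw with hw | hw
  · exact hw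
  · exfalso
    have h1 := h 1 (by norm_num) (by norm_num)
    have e : (2 : ℂ) - 1 = 1 := by norm_num
    rw [hw, e] at h1
    have h2 : Lambda g Q L 1 = 0 := by
      push_cast at h1
      linear_combination h1 / 2
    unfold Lambda at h2
    rw [Complex.Gamma_one, mul_one] at h2
    have hQ0 : (Q : ℂ) ≠ 0 := by exact_mod_cast hQ.ne'
    have hpi : (2 * (Real.pi : ℂ)) ≠ 0 := by
      have : (Real.pi : ℂ) ≠ 0 := by exact_mod_cast Real.pi_ne_zero
      exact mul_ne_zero two_ne_zero this
    have h3 : (Q : ℂ) ^ ((1 : ℂ) / 2) ≠ 0 := by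
      rw [Complex.cpow_def_of_ne_zero hQ0]
      exact Complex.exp_ne_zero _
    have h4 : (2 * (Real.pi : ℂ)) ^ (-(1 : ℂ)) ≠ 0 := by
      rw [Complex.cpow_def_of_ne_zero hpi]
      exact Complex.exp_ne_zero _
    exact mul_ne_zero (mul_ne_zero h3 (pow_ne_zero g h4)) hL h2

theorem eq_one {T : Finset ℤ} {L L' : ℂ → ℂ} (h : IsL T L) (h' : IsL T L') : L = L' := by
  have h1 : AnalyticOnNhd ℂ L Set.univ := fun z _ => h.1.analyticAt z
  have h2 : AnalyticOnNhd ℂ L' Set.univ := fun z _ => h'.1.analyticAt z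
  refine h1.eq_of_eventuallyEq h2 (z₀ := 2) ?_
  have h3 : ∀ᶠ s : ℂ in 𝓝 (2 : ℂ), 3 / 2 < s.re :=
    (Complex.continuous_re.continuousAt (x := (2 : ℂ))).eventually
      (lt_mem_nhds (show (3 / 2 : ℝ) < (2 : ℂ).re by norm_num))
  filter_upwards [h3] with s hs
  exact (h.2 s hs).unique (h'.2 s hs)

theorem parity {T : Finset ℤ} (h : Good T) : ParityRankZero T := by
  obtain ⟨-, ⟨hfin, -, L₀, hL₀, hne, -⟩, -⟩ := h
  have hr : rank T = 0 := by
    unfold rank
    rw [Module.finrank_eq_zero_iff_isTorsion]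
    intro P
    obtain ⟨n, hn, hP⟩ := isOfFinAddOrder_iff_nsmul_eq_zero.1 (isOfFinAddOrder_of_finite P)
    refine ⟨⟨(n : ℤ), mem_nonZeroDivisors_of_ne_zero (by exact_mod_cast hn.ne')⟩, ?_⟩
    show (n : ℤ) • P = 0
    rw [natCast_zsmul]
    exact hP
  refine ⟨hfin, hr, ⟨L₀, hL₀⟩, fun L hL => ?_⟩
  have hL1 : L 1 ≠ 0 := by
    rw [eq_one hL hL₀]
    exact hne
  refine ⟨hL1, fun w hw => ?_⟩
  have := root_one hL1 hw
  rw [hr, pow_zero, this]
  exact ⟨rfl, rfl⟩

theorem lower_of {a b c : ℕ → ℕ} {t : ℝ} (hab : ∀ X, a X ≤ b X)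
    (h : Tendsto (fun X : ℕ => (a X : ℝ) / (c X : ℝ)) atTop (𝓝 t)) : LowerProportion b c t := by
  intro ε hε
  obtain ⟨X₀, hX₀⟩ := eventually_atTop.1 (h.eventually (lt_mem_nhds (show t - ε < t by linarith)))
  refine ⟨X₀, fun X hX => ?_⟩
  have h1 := hX₀ X hX
  have h2 : (a X : ℝ) ≤ (b X : ℝ) := by exact_mod_cast hab X
  rcases Nat.eq_zero_or_pos (c X) with h3 | h3
  · rw [h3, Nat.cast_zero, mul_zero]
    exact Nat.cast_nonneg _
  · have h4 : (0 : ℝ) < (c X : ℝ) := by exact_mod_cast h3
    rw [lt_div_iff₀ h4] at h1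
    linarith

/-- **Main theorem.**
(1) Let `T` be a finite subset of the class such that `1` is not in `T` and for all `N ∈ T` the group
`E_N(ℚ)` is finite and `Ш(E_N)[2] = 0`.  Then the parity conjecture holds for `A_T = ∏_{N ∈ T} E_N`: the
rank is `0`, the `L`-function exists and does not vanish at the centre, all the root numbers are `1`.
(2) Let `S` be any finite subset of the class.  For every `D` of the base class `S_D` is a subset of the
class with `#S` elements, and the lower proportion of the `D` of the base class for which the parity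
conjecture holds for the abelian variety `A_T`, `T = S_D`, of dimension `#S` is at least `c ^ #S`.
(3) There are such sets `S` with any number `r` of elements.
(4) `0.4194 < c < 0.4195`, and the number of the `D ≤ X` of the base class is at least a positive
constant times `X (log X)^(-3/4)`. -/
theorem result :
    (∀ T : Finset ℤ, (∀ N ∈ T, Adm N ∧ N ≠ 1 ∧ RankZeroShaTwo (E N)) → ParityRankZero T) ∧
    (∀ S : Finset ℤ, (∀ M ∈ S, Adm M) →
      (∀ D : ℕ, Base D → (twists S D).card = S.card ∧ ∀ N ∈ twists S D, Adm N) ∧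
      LowerProportion (count fun D => ParityRankZero (twists S D)) (count fun _ => True)
        (cc ^ S.card)) ∧
    (∀ r : ℕ, ∃ S : Finset ℤ, S.card = r ∧ ∀ M ∈ S, Adm M) ∧
    (0.4194 < cc ∧ cc < 0.4195) ∧
    ∃ (b : ℝ) (X₀ : ℕ), 0 < b ∧ ∀ X : ℕ, X₀ ≤ X →
      b * X * (Real.log X) ^ (-(3 / 4) : ℝ) ≤ (count (fun _ => True) X : ℝ) := by
  classical
  obtain ⟨r1, r2, r3, r4, r5⟩ := MP_29b22a_nt.ProductsOfTwists.result
  refine ⟨fun T hT => parity (r1 T hT), fun S hS => ⟨(r2 S hS).1, lower_of (fun X => ?_)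
    (r2 S hS).2⟩, r3, r4, r5⟩
  unfold MP_29b22a_nt.ProductsOfTwists.count
  refine Finset.card_le_card fun D hD => ?_
  rw [Finset.mem_filter] at hD ⊢
  exact ⟨hD.1, hD.2.1, parity hD.2.2⟩

end Pool.Agent.Results.MP_ac3185_nt.ProductsOfTwists
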